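import Pool.Agent.Helper17.R8.Sheet

/-! # Row SIEVE of the sheet of rank eight (MP_798d7d_nt) -/

set_option autoImplicit false

namespace Pool.Helper17.R8

open Finset Polynomial

lemma sie_sum (K M : ℕ) (hK : 1 ≤ K) : ∑ q ∈ Ioc K M, ((q : ℝ) ^ 2)⁻¹ ≤ (K : ℝ)⁻¹ := by
  rcases Nat.lt_or_ge M K with h | h
  · rw [Ioc_eq_empty_of_le h.le, sum_empty]
    positivity
  · have := sum_Ioc_inv_sq_le_sub (α := ℝ) (k := K) (n := M) (by omega) h
    have h2 : (0 : ℝ) ≤ (M : ℝ)⁻¹ := by positivity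
    linarith

lemma sie_fib (M d r : ℕ) :
    ((range M).filter (fun s => s % d = r)).card ≤ M / d + 1 := by
  rw [← card_range (M / d + 1)]
  refine card_le_card_of_injOn (fun s => s / d) ?_ ?_
  · intro s hs
    have hs' := mem_coe.1 hs
    rw [mem_filter, mem_range] at hs'
    refine mem_coe.2 (mem_range.2 ?_)
    have := Nat.div_le_div_right (c := d) hs'.1.le
    show s / d < M / d + 1
    omega
  · intro a ha b hb hab
    have ha' := mem_coe.1 ha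
    have hb' := mem_coe.1 hb
    rw [mem_filter] at ha' hb'
    have h1 := Nat.div_add_mod a d
    have h2 := Nat.div_add_mod b d
    have hab' : a / d = b / d := hab
    rw [← h1, ← h2, ha'.2, hb'.2, hab']

/-- `fJ` as a polynomial in `t` -/
lemma sie_poly (e : ℕ → ℤ) : ∃ P : ℤ[X], P.natDegree = 5 ∧ P.leadingCoeff = 1728 ∧
    ∀ t : ℤ, P.eval t = fJ e t := by
  obtain ⟨a4, h4⟩ : ∃ a, a = e 3 ^ 2 := ⟨_, rfl⟩
  obtain ⟨a3, h3⟩ : ∃ a, a = 2 * e 3 * e 5 - 4 * e 8 := ⟨_, rfl⟩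
  obtain ⟨a2, h2⟩ : ∃ a, a = e 5 ^ 2 + 2 * e 3 * e 7 - 4 * (e 8 * e 2) := ⟨_, rfl⟩
  obtain ⟨a1, h1⟩ : ∃ a, a = 2 * e 5 * e 7 - 4 * (e 8 * e 4) := ⟨_, rfl⟩
  obtain ⟨a0, h0⟩ : ∃ a, a = e 7 ^ 2 - 4 * e 8 * e 6 := ⟨_, rfl⟩
  obtain ⟨b4, hb4⟩ : ∃ b : ℤ, b = (-432) * a4 + (576) * e 2 * e 4 + (-3456) * e 6 := ⟨_, rfl⟩
  obtain ⟨b3, hb3⟩ : ∃ b : ℤ, b = (864) * a1 + (-144) * a2 * e 2 + (-144) * a3 * e 4 +
    (864) * a4 * e 6 + (-576) * e 2 * e 4 * e 6 + (-1728) * e 2 ^ 2 * e 8 +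
    (4608) * e 4 * e 8 + (128) * e 4 ^ 3 + (1728) * e 6 ^ 2 := ⟨_, rfl⟩
  obtain ⟨b2, hb2⟩ : ∃ b : ℤ, b = (-432) * a0 * e 2 ^ 2 + (1152) * a0 * e 4 +
    (-216) * a1 * a4 + (144) * a1 * e 2 * e 4 + (-864) * a1 * e 6 + (36) * a2 * a3 +
    (144) * a2 * e 2 * e 6 + (-96) * a2 * e 4 ^ 2 + (-1152) * a2 * e 8 +
    (864) * a3 * e 2 * e 8 + (144) * a3 * e 4 * e 6 + (-1152) * a4 * e 4 * e 8 +
    (-432) * a4 * e 6 ^ 2 := ⟨_, rfl⟩
  obtain ⟨b1, hb1⟩ : ∃ b : ℤ, b = (-288) * a0 * a2 + (216) * a0 * a3 * e 2 +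
    (-288) * a0 * a4 * e 4 + (-36) * a1 * a2 * e 2 + (-36) * a1 * a3 * e 4 +
    (216) * a1 * a4 * e 6 + (108) * a1 ^ 2 + (-36) * a2 * a3 * e 6 + (288) * a2 * a4 * e 8 +
    (24) * a2 ^ 2 * e 4 + (-108) * a3 ^ 2 * e 8 := ⟨_, rfl⟩
  obtain ⟨b0, hb0⟩ : ∃ b : ℤ, b = (72) * a0 * a2 * a4 + (-27) * a0 * a3 ^ 2 +
    (9) * a1 * a2 * a3 + (-27) * a1 ^ 2 * a4 + (-2) * a2 ^ 3 := ⟨_, rfl⟩
  have hd : (C (1728 : ℤ) * X ^ 5 + C b4 * X ^ 4 + C b3 * X ^ 3 + C b2 * X ^ 2 + C b1 * X +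
      C b0 : ℤ[X]).natDegree = 5 := by
    compute_degree!
  refine ⟨C 1728 * X ^ 5 + C b4 * X ^ 4 + C b3 * X ^ 3 + C b2 * X ^ 2 + C b1 * X + C b0, hd, ?_, ?_⟩
  · rw [leadingCoeff, hd]
    simp only [coeff_add, coeff_C_mul, coeff_X_pow, coeff_X, coeff_C]
    norm_num
  · intro t
    simp only [eval_add, eval_mul, eval_pow, eval_X, eval_C]
    rw [hb4, hb3, hb2, hb1, hb0, h4, h3, h2, h1, h0]
    unfold fJ q4 q3 q2 q1 q0
    ring

lemma sie_cong (T : (Fin 6 → ℕ) × ℕ) : Cong (ww T) := by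
  refine ⟨fun i => ⟨(T.1 i : ℤ), ?_⟩, ⟨(T.2 : ℤ), ?_⟩⟩
  · simp only [ww]
    ring
  · simp only [ww]
    ring

lemma sie_cop (q : ℕ) (hq : q.Prime) (hQ : QQ < q) (k : ℕ) : IsCoprime ((q : ℤ) ^ k) MM := by
  refine IsCoprime.pow_left ?_
  unfold MM
  have h1 : Nat.Coprime q 1728 := by
    rw [Nat.Prime.coprime_iff_not_dvd hq]
    intro h
    have h2 : q ∣ 2 ^ 6 * 3 ^ 3 := by
      norm_num
      exact h
    rcases (Nat.Prime.dvd_mul hq).1 h2 with h3 | h3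
    · have := Nat.le_of_dvd (by norm_num) (hq.dvd_of_dvd_pow h3)
      unfold QQ at hQ
      omega
    · have := Nat.le_of_dvd (by norm_num) (hq.dvd_of_dvd_pow h3)
      unfold QQ at hQ
      omega
  have h2 : Nat.Coprime q (Nat.factorial QQ) := by
    rw [Nat.Prime.coprime_iff_not_dvd hq, hq.dvd_factorial]
    omega
  have h3 := Nat.isCoprime_iff_coprime.2 (Nat.Coprime.mul_right h1 h2)
  push_cast at h3
  exact h3

lemma sie_ndvd (q : ℕ) (hq : q.Prime) (hQ : QQ < q) : ¬ (q : ℤ) ∣ 1728 := by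
  intro h
  have h1 : (q : ℤ) ∣ MM := by
    unfold MM
    exact Dvd.dvd.mul_right h _
  have h2 := sie_cop q hq hQ 1
  rw [pow_one] at h2
  have h3 : IsUnit (q : ℤ) := h2.isUnit_of_dvd' dvd_rfl h1
  rw [Int.isUnit_iff] at h3
  have := hq.two_le
  omega

open Classical in
/-- one prime, one `T.1` -/
lemma sie_one (hR : ST_REL) (hD : ST_DDIV) (v : Fin 6 → ℕ) (M q : ℕ) (hq : q.Prime)
    (hQ : QQ < q) :
    ((range M).filter (fun s => (q : ℤ) ^ 6 ∣ cB (ww (v, s)))).card ≤ 5 * (M / q ^ 2 + 1) := by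
  obtain ⟨P, hP1, hP2, hP3⟩ := sie_poly (ek (ss (fun i => ub i + MM * (v i : ℤ))))
  obtain ⟨F, hF⟩ : ∃ F, F = (range M).filter (fun s => (q : ℤ) ^ 6 ∣ cB (ww (v, s))) := ⟨_, rfl⟩
  rw [← hF]
  have himg : (F.image (fun s => s % q ^ 2)).card ≤ 5 := by
    by_contra hcon
    obtain ⟨G, hG1, hG2⟩ := exists_subset_card_eq (show 6 ≤ (F.image (fun s => s % q ^ 2)).card by
      omega)
    have hch : ∀ r ∈ G, ∃ s ∈ F, s % q ^ 2 = r := by
      intro r hr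
      exact mem_image.1 (hG1 hr)
    choose! f hf1 hf2 using hch
    obtain ⟨i, j, hij, hdv⟩ := hD P q hq hP1 (by rw [hP2]; exact sie_ndvd q hq hQ)
      (fun i => 3 + MM * ((f ((G.equivFinOfCardEq hG2).symm i : ℕ) : ℕ) : ℤ)) (by
        intro i
        have h1 := hf1 _ ((G.equivFinOfCardEq hG2).symm i).2
        rw [hF, mem_filter] at h1
        have h2 := (hR _ (sie_cong (v, f ((G.equivFinOfCardEq hG2).symm i : ℕ)))).2.1
        rw [hP3]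
        have h3 : fJ (ek (ss (fun i => ub i + MM * (v i : ℤ))))
            (3 + MM * ((f ((G.equivFinOfCardEq hG2).symm i : ℕ) : ℕ) : ℤ)) =
            -(1728 * cB (ww (v, f ((G.equivFinOfCardEq hG2).symm i : ℕ)))) := by
          rw [h2]
          simp only [ww, neg_neg]
        rw [h3]
        exact (Dvd.dvd.mul_left h1.2 _).neg_right)
    have h4 : (q : ℤ) ^ 2 ∣ MM * (((f ((G.equivFinOfCardEq hG2).symm i : ℕ) : ℕ) : ℤ) -
        ((f ((G.equivFinOfCardEq hG2).symm j : ℕ) : ℕ) : ℤ)) := by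
      have h5 : MM * (((f ((G.equivFinOfCardEq hG2).symm i : ℕ) : ℕ) : ℤ) -
        ((f ((G.equivFinOfCardEq hG2).symm j : ℕ) : ℕ) : ℤ)) =
        (3 + MM * ((f ((G.equivFinOfCardEq hG2).symm i : ℕ) : ℕ) : ℤ)) -
        (3 + MM * ((f ((G.equivFinOfCardEq hG2).symm j : ℕ) : ℕ) : ℤ)) := by ring
      rw [h5]
      exact hdv
    have h6 := (sie_cop q hq hQ 2).dvd_of_dvd_mul_left h4
    have h7 : (f ((G.equivFinOfCardEq hG2).symm j : ℕ)) ≡ (f ((G.equivFinOfCardEq hG2).symm i : ℕ))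
        [MOD q ^ 2] := by
      rw [Nat.modEq_iff_dvd]
      push_cast
      exact h6
    have h8 : ((G.equivFinOfCardEq hG2).symm j : ℕ) = ((G.equivFinOfCardEq hG2).symm i : ℕ) := by
      rw [← hf2 _ ((G.equivFinOfCardEq hG2).symm j).2, ← hf2 _ ((G.equivFinOfCardEq hG2).symm i).2]
      exact h7
    exact hij ((G.equivFinOfCardEq hG2).symm.injective (Subtype.ext h8.symm))
  have hfib : ∀ r ∈ F.image (fun s => s % q ^ 2), (F.filter (fun s => s % q ^ 2 = r)).card ≤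
      M / q ^ 2 + 1 := by
    intro r _
    refine (card_le_card ?_).trans (sie_fib M (q ^ 2) r)
    intro s hs
    rw [mem_filter, hF, mem_filter] at hs
    exact mem_filter.2 ⟨hs.1.1, hs.2⟩
  have h9 := card_le_mul_card_image (s := F) (M / q ^ 2 + 1) hfib
  calc F.card ≤ (M / q ^ 2 + 1) * (F.image (fun s => s % q ^ 2)).card := h9
    _ ≤ (M / q ^ 2 + 1) * 5 := Nat.mul_le_mul_left _ himg
    _ = 5 * (M / q ^ 2 + 1) := Nat.mul_comm _ _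

lemma sie_ne (hR : ST_REL) (T : (Fin 6 → ℕ) × ℕ) : cB (ww T) ≠ 0 := by
  intro h
  have h1 := (hR _ (sie_cong T)).2.2.2
  rw [h] at h1
  have h2 : (5 : ℤ) ∣ ((QQ.factorial : ℕ) : ℤ) := by
    have : (5 : ℕ) ∣ QQ.factorial := Nat.dvd_factorial (by norm_num) (by unfold QQ; norm_num)
    exact_mod_cast this
  have h3 := h2.trans h1
  norm_num at h3

open Classical in
theorem st_SIEVE (hR : ST_REL) (hB : ST_BND) (hD : ST_DDIV) : ST_SIEVE := by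
  obtain ⟨C, hC, hB⟩ := hB
  obtain ⟨c, rfl⟩ : ∃ c : ℕ, C = (c : ℤ) := ⟨C.toNat, by omega⟩
  have hc : 1 ≤ c := by omega
  refine ⟨11 * c + 1, ?_⟩
  intro m hm
  have hm1 : 1 ≤ m := by omega
  obtain ⟨V, hV⟩ : ∃ V : Finset (Fin 6 → ℕ), V = Fintype.piFinset fun _ => range m := ⟨_, rfl⟩
  have hVc : V.card = m ^ 6 := by
    rw [hV, Fintype.card_piFinset]
    simp
  have h1 : ((Box m).filter (fun T => ∃ q : ℕ, q.Prime ∧ QQ < q ∧ (q : ℤ) ^ 6 ∣ cB (ww T))) ⊆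
      (V ×ˢ Ioc QQ (c * m ^ 5)).biUnion (fun z =>
        if z.2.Prime then ((range (m ^ 6)).filter (fun s => (z.2 : ℤ) ^ 6 ∣ cB (ww (z.1, s)))).image
          (fun s => (z.1, s)) else ∅) := by
    intro T hT
    rw [mem_filter] at hT
    obtain ⟨hT1, q, hq1, hq2, hq3⟩ := hT
    have hT2 := hT1
    unfold Box at hT2
    rw [mem_product] at hT2
    have hq4 : q ≤ c * m ^ 5 := by
      have h2 := Int.le_of_dvd (abs_pos.2 (sie_ne hR T)) ((dvd_abs _ _).2 hq3)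
      have h3 := (hB m hm1 T hT1).2
      have h4 : ((q ^ 6 : ℕ) : ℤ) ≤ ((c * m ^ 30 : ℕ) : ℤ) := by
        push_cast
        exact h2.trans h3
      have h5 : q ^ 6 ≤ c * m ^ 30 := by exact_mod_cast h4
      by_contra hcon
      have h6 : (c * m ^ 5) ^ 6 < q ^ 6 := Nat.pow_lt_pow_left (by omega) (by norm_num)
      have h7 : c * m ^ 30 ≤ (c * m ^ 5) ^ 6 := by
        rw [mul_pow, ← pow_mul]
        refine Nat.mul_le_mul_right _ ?_
        exact Nat.le_self_pow (by norm_num) c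
      omega
    refine mem_biUnion.2 ⟨(T.1, q), mem_product.2 ⟨?_, mem_Ioc.2 ⟨hq2, hq4⟩⟩, ?_⟩
    · rw [hV]
      exact hT2.1
    · rw [if_pos hq1]
      refine mem_image.2 ⟨T.2, mem_filter.2 ⟨hT2.2, ?_⟩, rfl⟩
      exact hq3
  have h2 : ((Box m).filter (fun T => ∃ q : ℕ, q.Prime ∧ QQ < q ∧
      (q : ℤ) ^ 6 ∣ cB (ww T))).card ≤
      ∑ z ∈ V ×ˢ Ioc QQ (c * m ^ 5), 5 * (m ^ 6 / z.2 ^ 2 + 1) := by
    refine (card_le_card h1).trans (card_biUnion_le.trans (sum_le_sum fun z hz => ?_))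
    rw [mem_product, mem_Ioc] at hz
    by_cases hp : z.2.Prime
    · rw [if_pos hp]
      exact card_image_le.trans (sie_one hR hD z.1 (m ^ 6) z.2 hp hz.2.1)
    · rw [if_neg hp, card_empty]
      exact Nat.zero_le _
  have h3 : ((∑ z ∈ V ×ˢ Ioc QQ (c * m ^ 5), 5 * (m ^ 6 / z.2 ^ 2 + 1) : ℕ) : ℝ) ≤
      (m : ℝ) ^ 6 * (5 * ((m : ℝ) ^ 6 * (1 / 1000) + c * (m : ℝ) ^ 5)) := by
    have e0 : ∑ z ∈ V ×ˢ Ioc QQ (c * m ^ 5), 5 * (m ^ 6 / z.2 ^ 2 + 1) =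
        m ^ 6 * ∑ q ∈ Ioc QQ (c * m ^ 5), 5 * (m ^ 6 / q ^ 2 + 1) := by
      rw [sum_product]
      simp only [sum_const, hVc, smul_eq_mul]
    rw [e0]
    push_cast
    refine mul_le_mul_of_nonneg_left ?_ (by positivity)
    rw [← mul_sum]
    refine mul_le_mul_of_nonneg_left ?_ (by norm_num)
    rw [sum_add_distrib, sum_const, nsmul_eq_mul, mul_one]
    refine add_le_add ?_ ?_
    · have e1 : ∀ q ∈ Ioc QQ (c * m ^ 5), ((m ^ 6 / q ^ 2 : ℕ) : ℝ) ≤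
          (m : ℝ) ^ 6 * ((q : ℝ) ^ 2)⁻¹ := by
        intro q _
        have := Nat.cast_div_le (α := ℝ) (m := m ^ 6) (n := q ^ 2)
        push_cast at this
        rw [div_eq_mul_inv] at this
        exact this
      refine (sum_le_sum e1).trans ?_
      rw [← mul_sum]
      refine mul_le_mul_of_nonneg_left ?_ (by positivity)
      have e2 := sie_sum QQ (c * m ^ 5) (by unfold QQ; norm_num)
      have e3 : ((QQ : ℕ) : ℝ)⁻¹ = 1 / 1000 := by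
        unfold QQ
        norm_num
      rw [e3] at e2
      exact e2
    · rw [Nat.card_Ioc]
      have : ((c * m ^ 5 - QQ : ℕ) : ℝ) ≤ ((c * m ^ 5 : ℕ) : ℝ) := by
        exact_mod_cast Nat.sub_le _ _
      push_cast at this
      exact this
  have h4 : ((2 * ((Box m).filter (fun T => ∃ q : ℕ, q.Prime ∧ QQ < q ∧
      (q : ℤ) ^ 6 ∣ cB (ww T))).card : ℕ) : ℝ) ≤ ((m ^ 12 : ℕ) : ℝ) := by
    have h5 : ((((Box m).filter (fun T => ∃ q : ℕ, q.Prime ∧ QQ < q ∧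
        (q : ℤ) ^ 6 ∣ cB (ww T))).card : ℕ) : ℝ) ≤
        ((∑ z ∈ V ×ˢ Ioc QQ (c * m ^ 5), 5 * (m ^ 6 / z.2 ^ 2 + 1) : ℕ) : ℝ) := by
      exact_mod_cast h2
    rw [Nat.cast_mul, Nat.cast_pow]
    refine le_trans (mul_le_mul_of_nonneg_left (h5.trans h3) (by norm_num)) ?_
    have hm' : (11 : ℝ) * c ≤ m := by
      have : 11 * c ≤ m := by omega
      exact_mod_cast this
    have e : (2 : ℕ) * ((m : ℝ) ^ 6 * (5 * ((m : ℝ) ^ 6 * (1 / 1000) + c * (m : ℝ) ^ 5)))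
        = (m : ℝ) ^ 12 * (1 / 100) + (m : ℝ) ^ 11 * (10 * c) := by
      push_cast
      ring
    rw [e]
    have e2 : (m : ℝ) ^ 11 * (10 * c) ≤ (m : ℝ) ^ 11 * (10 / 11 * m) := by
      refine mul_le_mul_of_nonneg_left ?_ (by positivity)
      linarith
    have e3 : (m : ℝ) ^ 11 * (10 / 11 * m) = 10 / 11 * (m : ℝ) ^ 12 := by ring
    have e4 : (0 : ℝ) ≤ (m : ℝ) ^ 12 := by positivity
    linarith
  exact_mod_cast h4

end Pool.Helper17.R8
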