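import Mathlib
import Pool.Agent.Helper97.RK.Stmts
import Pool.Agent.Helper17.RS.Sheet

/-! # Statements for `N_8(H) ≥ c H ^ (1/5)` (MP_798d7d_nt, rank eight)

FAMILY (`E₈`, cuspidal cubic).  Eight integers `u i` of sum zero and an integer `t` (weights 1 and 6).
The plane cubic `F + t (y - x³)` passes through `(0, 0)` and the `(u i, (u i)³)`; projection from
`(0, 0)` gives `w² = g(m, n)`, `g = f2² - f1 f3`, with
`f1 = (e6 + t) m + e8 n`, `f2 = -(e3/2 m² + e5/2 m n + e7/2 n²)`,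
`f3 = m³ + e2 m² n + e4 m n² - t n³` (`e_k` elementary symmetric functions of `u`; `e3, e5, e7` are
even on the residue class).  `A = -27 I(g)` (weight 20), `B = -27 J(g)` (weight 30),
`I = 3 e2 t³ + ..`, `J = 27 t⁵ + ..`.
Rational points of `w² = g`: `(m, n) = ((u i)², 1)` and `(m, n) = (-e8, e6 + t)`.
COUNT: six of the `u i` in a box of side `N`, `t < N⁶`: `N¹²` pairs, height `N⁶⁰`.
-/

set_option autoImplicit false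

namespace Pool.Helper89.R8

open Pool.Agent.Helper97.RK (cur)
open Pool.Helper17.RS (NR)
open Polynomial

/-- the step of the residue class -/
def SM : ℤ := 2 * (Nat.factorial 1000 : ℤ)

/-- elementary symmetric functions -/
def ee (k : ℕ) (u : Fin 8 → ℤ) : ℤ := ∑ s ∈ Finset.powersetCard k Finset.univ, ∏ i ∈ s, u i

section
variable {R : Type*} [CommRing R]

/-! `x = (e2, e3/2, e4, e5/2, e6, e7/2, e8)` -/

/-- the coefficients of `g = c4 m⁴ + c3 m³ n + c2 m² n² + c1 m n³ + c0 n⁴` -/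
def c4 (x : Fin 7 → R) (t : R) : R := x 1 ^ 2 - x 4 - t
def c3 (x : Fin 7 → R) (t : R) : R := 2 * x 1 * x 3 - x 6 - x 0 * (x 4 + t)
def c2 (x : Fin 7 → R) (t : R) : R := x 3 ^ 2 + 2 * x 1 * x 5 - x 0 * x 6 - x 2 * (x 4 + t)
def c1 (x : Fin 7 → R) (t : R) : R := 2 * x 3 * x 5 - x 2 * x 6 + (x 4 + t) * t
def c0 (x : Fin 7 → R) (t : R) : R := x 5 ^ 2 + x 6 * t

/-- the invariants of a binary quartic -/
def II (a4 a3 a2 a1 a0 : R) : R := 12 * a4 * a0 - 3 * a3 * a1 + a2 ^ 2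
def JJ (a4 a3 a2 a1 a0 : R) : R := 72 * a4 * a2 * a0 + 9 * a3 * a2 * a1 - 27 * a4 * a1 ^ 2 -
  27 * a0 * a3 ^ 2 - 2 * a2 ^ 3

def Iv (x : Fin 7 → R) (t : R) : R := II (c4 x t) (c3 x t) (c2 x t) (c1 x t) (c0 x t)
def Jv (x : Fin 7 → R) (t : R) : R := JJ (c4 x t) (c3 x t) (c2 x t) (c1 x t) (c0 x t)

/-- coefficients of `λ³ μ`, `λ² μ²`, `λ μ³` in `g (λ (r, 1) + μ (m, n))` -/
def h3 (a4 a3 a2 a1 a0 r m n : R) : R :=
  4 * a4 * r ^ 3 * m + a3 * (3 * r ^ 2 * m + r ^ 3 * n) + a2 * (2 * r * m + 2 * r ^ 2 * n) +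
    a1 * (m + 3 * r * n) + 4 * a0 * n
def h2 (a4 a3 a2 a1 a0 r m n : R) : R :=
  6 * a4 * r ^ 2 * m ^ 2 + a3 * (3 * r * m ^ 2 + 3 * r ^ 2 * m * n) +
    a2 * (m ^ 2 + 4 * r * m * n + r ^ 2 * n ^ 2) + a1 * (3 * m * n + 3 * r * n ^ 2) + 6 * a0 * n ^ 2
def h1 (a4 a3 a2 a1 a0 r m n : R) : R :=
  4 * a4 * r * m ^ 3 + a3 * (m ^ 3 + 3 * r * m ^ 2 * n) + a2 * (2 * m ^ 2 * n + 2 * r * m * n ^ 2) +
    a1 * (3 * m * n ^ 2 + r * n ^ 3) + 4 * a0 * n ^ 3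

/-- `w` at `((u i)², 1)` -/
def wi (x : Fin 7 → R) (t r : R) : R :=
  r * (r ^ 6 + x 0 * r ^ 4 + x 2 * r ^ 2 - t) - (x 1 * r ^ 4 + x 3 * r ^ 2 + x 5)
/-- `w` at `(-e8, e6 + t)` -/
def wq (x : Fin 7 → R) (t : R) : R :=
  -(x 1 * x 6 ^ 2 - x 3 * x 6 * (x 4 + t) + x 5 * (x 4 + t) ^ 2)

/-- the points: `YY² = XX³ - 27 Iv DD⁴ XX - 27 Jv DD⁶` -/
def DD (x : Fin 7 → R) (t r : R) : R := r ^ 2 * (x 4 + t) + x 6
def XX (x : Fin 7 → R) (t r : R) : R :=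
  3 * h2 (c4 x t) (c3 x t) (c2 x t) (c1 x t) (c0 x t) (r ^ 2) (-x 6) (x 4 + t) +
    18 * wi x t r * wq x t
def YY (x : Fin 7 → R) (t r : R) : R :=
  27 * (wi x t r * h1 (c4 x t) (c3 x t) (c2 x t) (c1 x t) (c0 x t) (r ^ 2) (-x 6) (x 4 + t) +
    wq x t * h3 (c4 x t) (c3 x t) (c2 x t) (c1 x t) (c0 x t) (r ^ 2) (-x 6) (x 4 + t))
end

def xx (u : Fin 8 → ℤ) : Fin 7 → ℤ :=
  ![ee 2 u, ee 3 u / 2, ee 4 u, ee 5 u / 2, ee 6 u, ee 7 u / 2, ee 8 u]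

def AA (u : Fin 8 → ℤ) (t : ℤ) : ℤ := -27 * Iv (xx u) t
def BB (u : Fin 8 → ℤ) (t : ℤ) : ℤ := -27 * Jv (xx u) t

/-- the base point (and `t = 89`) -/
def bb : Fin 8 → ℤ := ![5, 8, 6, 3, -1, -10, 9, -20]
def xb : Fin 7 → ℤ := ![-358, -1232, 18417, 121352, 760500, 138600, -1296000]

/-- the residue class -/
def Cls (u : Fin 8 → ℤ) : Prop := (∀ i, SM ∣ u i - bb i) ∧ ∑ i, u i = 0

def uu (v : Fin 6 → ℕ) : Fin 8 → ℤ :=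
  ![5 + SM * v 0, 8 + SM * v 1, 6 + SM * v 2, 3 + SM * v 3, -1 + SM * v 4, -10 + SM * v 5, 9,
    -20 - SM * (v 0 + v 1 + v 2 + v 3 + v 4 + v 5)]
def tt (s : ℕ) : ℤ := 89 + SM * s

def VB (N : ℕ) : Finset (Fin 6 → ℕ) := Fintype.piFinset fun _ => Finset.range N
def BX (N : ℕ) : Finset ((Fin 6 → ℕ) × ℕ) := VB N ×ˢ Finset.range (N ^ 6)

/-! ## The eight values -/

/-- ESY -/
def ST_ESY : Prop := ∀ u : Fin 8 → ℤ, ∑ i, u i = 0 → ∀ x : ℤ, ∏ i, (x - u i) =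
  x ^ 8 + ee 2 u * x ^ 6 - ee 3 u * x ^ 5 + ee 4 u * x ^ 4 - ee 5 u * x ^ 3 + ee 6 u * x ^ 2 -
    ee 7 u * x + ee 8 u

/-- RES: parity and residues (`ee k u ≡ ee k bb` modulo `SM`, `xx bb = xb` by `decide`). -/
def ST_RES : Prop := ∀ u : Fin 8 → ℤ, Cls u →
  2 * xx u 1 = ee 3 u ∧ 2 * xx u 3 = ee 5 u ∧ 2 * xx u 5 = ee 7 u ∧
    ∀ j, (Nat.factorial 1000 : ℤ) ∣ xx u j - xb j

/-- ROOTS (from ESY and RES): `∏ j, (u i - u' j) = 0` and the `bb j` are distinct modulo 31. -/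
def ST_ROOTS : Prop := ∀ u u' : Fin 8 → ℤ, Cls u → Cls u' → xx u = xx u' → u = u'

/-- UCL: the box is in the residue class; `uu` is injective. -/
def ST_UCL : Prop := (∀ v, Cls (uu v)) ∧ Function.Injective uu ∧ Function.Injective tt

/-! ## The points -/

/-- QP: the point on the Jacobian from two points of `w² = g` (`g` at `(r, 1)` is `a²`, at `(m, n)`
is `b²`).  `II`, `JJ` of `(a², h3, h2, h1, b²)` are `D⁴ II`, `D⁶ JJ` with `D = r n - m` (`ring`), and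
`27² (a h1 + b h3)² = (3 h2 + 18 a b)³ - 27 I' (3 h2 + 18 a b) - 27 J'` (`ring`). -/
def ST_QP : Prop := ∀ a4 a3 a2 a1 a0 r m n a b : ℤ,
  a4 * r ^ 4 + a3 * r ^ 3 + a2 * r ^ 2 + a1 * r + a0 = a ^ 2 →
  a4 * m ^ 4 + a3 * m ^ 3 * n + a2 * m ^ 2 * n ^ 2 + a1 * m * n ^ 3 + a0 * n ^ 4 = b ^ 2 →
  (27 * (a * h1 a4 a3 a2 a1 a0 r m n + b * h3 a4 a3 a2 a1 a0 r m n)) ^ 2 =
    (3 * h2 a4 a3 a2 a1 a0 r m n + 18 * a * b) ^ 3 +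
      -27 * II a4 a3 a2 a1 a0 * (r * n - m) ^ 4 * (3 * h2 a4 a3 a2 a1 a0 r m n + 18 * a * b) +
      -27 * JJ a4 a3 a2 a1 a0 * (r * n - m) ^ 6

/-- PTS (from QP).  `g (r², 1) = (wi)² - f3 F(r)` where `F(r)` is the left side of the hypothesis,
`f3 = r⁶ + x0 r⁴ + x2 r² - t`; `g (-x6, x4 + t) = (wq)²`. -/
def ST_PTS : Prop := ∀ (x : Fin 7 → ℤ) (t r : ℤ),
  r ^ 8 + x 0 * r ^ 6 - 2 * x 1 * r ^ 5 + x 2 * r ^ 4 - 2 * x 3 * r ^ 3 + x 4 * r ^ 2 -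
    2 * x 5 * r + x 6 = 0 →
  YY x t r ^ 2 = XX x t r ^ 3 + -27 * Iv x t * DD x t r ^ 4 * XX x t r + -27 * Jv x t * DD x t r ^ 6

/-- RANKQ: rank certificate with denominators.  As `Helper16/RK/RANK.lean` (the points are
`(X / D², Y / D³)`; `HOM` is for rational `x`; the product of the `X - θ D²` instead of `x - θ`). -/
def ST_RANKQ : Prop := ∀ (n : ℕ) (A B : ℤ) (X Y D : Fin n → ℤ),
  (∀ i, D i ≠ 0) →
  (∀ i, Y i ^ 2 = X i ^ 3 + A * D i ^ 4 * X i + B * D i ^ 6) → 4 * A ^ 3 + 27 * B ^ 2 ≠ 0 →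
  ∀ p : ℕ, (∀ t : ZMod p, t ^ 3 + (A : ZMod p) * t + (B : ZMod p) ≠ 0) →
  (∀ S : Finset (Fin n), S.Nonempty → ∃ (q : ℕ) (e : ℤ), q.Prime ∧
    ((e ^ 3 + A * e + B : ℤ) : ZMod q) = 0 ∧ ((3 * e ^ 2 + A : ℤ) : ZMod q) ≠ 0 ∧
    ¬ IsSquare (∏ i ∈ S, ((X i - e * D i ^ 2 : ℤ) : ZMod q))) →
  (n : Cardinal) ≤ Module.rank ℤ ((cur A B).toAffine).Point

/-- GCD.  At the base point `I = 4572500745941479639`, `J = -67050740670093849767600562221`,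
`gcd (I, J) = 1`, `I` is prime to `6`. -/
def ST_GCD : Prop := ∀ (u : Fin 8 → ℤ) (t : ℤ), Cls u → SM ∣ t - 89 →
  AA u t ≠ 0 ∧ BB u t ≠ 0 ∧ 4 * AA u t ^ 3 + 27 * BB u t ^ 2 ≠ 0 ∧
  (∀ q : ℕ, q.Prime → q ≤ 1000 → ¬ ((q : ℤ) ^ 4 ∣ AA u t ∧ (q : ℤ) ^ 6 ∣ BB u t))

/-- CERT8 (from RANKQ, PTS, ESY, RES, GCD).  Points `i : Fin 8 ↦ (XX, YY, DD) (xx u) t (u i)`;
`p = 29` (no root), characters `(q, e)` (simple roots), signs of `XX - e DD²` for `i = 0, .., 7`: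
`(7, 0): (+,-,-,-,-,-,+,-)`, `(11, 5): (+,-,+,-,+,+,-,-)`, `(11, 7): (-,-,-,-,-,-,+,+)`,
`(13, 3): (+,+,-,-,-,-,-,-)`, `(17, 4): (-,-,-,+,+,+,-,+)`, `(17, 6): (-,-,+,+,-,-,+,-)`,
`(19, 4): (+,+,-,+,+,-,-,+)`, `(19, 6): (-,-,+,+,+,+,+,+)`.  The characters are independent.  The
definitions `XX`, `DD`, `Iv`, .. are over any commutative ring, so the casts to `ZMod q` are
`XX (fun j => (xb j : ZMod q)) 89 (bb i)` (RES), by `decide`. -/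
def ST_CERT8 : Prop := ∀ (u : Fin 8 → ℤ) (t : ℤ), Cls u → SM ∣ t - 89 →
  (8 : Cardinal) ≤ Module.rank ℤ ((cur (AA u t) (BB u t)).toAffine).Point

/-! ## Multiplicities -/

/-- IJP: the polynomials in `t`. -/
def ST_IJP : Prop := ∀ x : Fin 7 → ℤ, x 0 ≠ 0 → ∃ P Q : ℤ[X], P.natDegree = 3 ∧
  Q.natDegree = 5 ∧ Q.leadingCoeff = 27 ∧
  (∀ (K : Type) [Field K] [CharZero K] (t : K),
    aeval t P = Iv (fun j => (x j : K)) t ∧ aeval t Q = Jv (fun j => (x j : K)) t)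

/-- INJ.  Comparing the coefficients of `t⁴` in `Jv`: `15 s = D(xx u) - D(xx u')` with
`D = x0 x2 - 3 x1² + 9 x4`; so `s` is an integer divisible by 31.  If `(xx u', s) - (xx u, 0)` is
`31^k w` with `w` not divisible by 31, then modulo `31^(k+1)` the nine equations at
`t = 0, 1, 2, -1` (Iv) and `t = 0, 1, -1, 2, -2` (Jv) give nine linear congruences for `w` modulo 31,
of rank 8. -/
def ST_INJ : Prop := ∀ u u' : Fin 8 → ℤ, Cls u → Cls u' → ∀ s : ℚ,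
  (∀ t : ℚ, Iv (fun j => (xx u j : ℚ)) t = Iv (fun j => (xx u' j : ℚ)) (t + s) ∧
    Jv (fun j => (xx u j : ℚ)) t = Jv (fun j => (xx u' j : ℚ)) (t + s)) → xx u = xx u'

/-- BEZ: two plane curves `P(t) = P'(t')`, `Q(t) = Q'(t')`.
Let `R(t)` be the resultant in `X` of `P'(X) - P(t)` and `Q'(X) - Q(t)` (`Polynomial.resultant` over
`ℤ[X]`, `resultant_map_map`, `resultant_eq_zero_iff`), of degree `≤ 40`.  If `R ≠ 0`: at most `40`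
values of `t`, each with at most 3 values of `t'`.  If `R = 0`: for every integer `n` the polynomials
`P'(X) - P(n)`, `Q'(X) - Q(n)` have a common complex root `X_n`.  Sizes: `(X_n / n)⁵ → 1` and
`a' (X_n / n)³ → a` (leading coefficients of `P'`, `P`), so `X_n / n → 1`, `a = a'`, and
`X_n - n → s = (b4 - b4') / (5 κ)`.  The gcd over `ℚ` has only such roots, and `P'(X) - P(n)` has only
one (the sum of the three roots is constant, their product is `~ n³`), so the gcd is linear, `X_n` is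
rational, `a' X_n` is an integer, so `X_n = n + s` for large `n`. -/
def ST_BEZ : Prop := ∀ P Q P' Q' : ℤ[X], P.natDegree = 3 → P'.natDegree = 3 → Q.natDegree = 5 →
  Q'.natDegree = 5 → Q.leadingCoeff = Q'.leadingCoeff →
  (∃ s : ℚ, ∀ t : ℚ, aeval t P = aeval (t + s) P' ∧ aeval t Q = aeval (t + s) Q') ∨
  ∀ S : Finset (ℤ × ℤ), (∀ z ∈ S, P.eval z.1 = P'.eval z.2 ∧ Q.eval z.1 = Q'.eval z.2) →
    S.card ≤ 120

open Classical in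
/-- COL (from BEZ, IJP, INJ, ROOTS, UCL, RES).  For `v ≠ v'` at most 120 pairs `(s, s')`; for
`v = v'` at most 5 values of `s'` for each `s`. -/
def ST_COL : Prop := ∀ N : ℕ,
  ((BX N ×ˢ BX N).filter (fun z => AA (uu z.1.1) (tt z.1.2) = AA (uu z.2.1) (tt z.2.2) ∧
    BB (uu z.1.1) (tt z.1.2) = BB (uu z.2.1) (tt z.2.2))).card ≤ 125 * N ^ 12

/-! ## Sizes and sieve -/

/-- BND -/
def ST_BND : Prop := ∃ C : ℤ, 1 ≤ C ∧ ∀ N : ℕ, 1 ≤ N → ∀ z ∈ BX N,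
  |AA (uu z.1) (tt z.2)| ≤ C * (N : ℤ) ^ 20 ∧ |BB (uu z.1) (tt z.2)| ≤ C * (N : ℤ) ^ 30

open Classical in
/-- SVQ.  Six integers `s_j`, pairwise incongruent modulo `q²`, with `q⁶ ∣ P(s_j)`: the leading
coefficient is `∑ P(s_j) / ∏_(i ≠ j) (s_j - s_i)` (Lagrange), each product is divisible at most by
`q⁵`; contradiction.  So at most 5 residue classes modulo `q²`. -/
def ST_SVQ : Prop := ∀ (P : ℤ[X]) (q : ℕ), P.natDegree = 5 → q.Prime →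
  ¬ ((q : ℤ) ∣ P.leadingCoeff) → ∀ T : ℕ,
  ((Finset.range T).filter (fun s : ℕ => (q : ℤ) ^ 6 ∣ P.eval (s : ℤ))).card ≤ 5 * (T / q ^ 2 + 1)

open Classical in
/-- SV8 (from SVQ, IJP, BND, GCD, UCL).  `BB (uu v) (tt s)` is a polynomial in `s` with leading
coefficient `-27 * 27 * SM⁵`; a prime `q` with `q⁶ ∣ BB ≠ 0` is at most `C N⁵`;
`∑_(q > 1000) 5 (N⁶ / q² + 1) ≤ 5 N⁶ / 1000 + 5 C N⁵`. -/
def ST_SV8 : Prop := ∃ N0 : ℕ, ∀ N : ℕ, N0 ≤ N → ∀ v ∈ VB N,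
  2 * ((Finset.range (N ^ 6)).filter (fun s : ℕ => ∃ q : ℕ, q.Prime ∧ 1000 < q ∧
    (q : ℤ) ^ 6 ∣ BB (uu v) (tt s))).card ≤ N ^ 6

/-! ## End -/

def RS8 (C : ℤ) (N : ℕ) : Set (ℤ × ℤ) :=
  {p | 4 * p.1 ^ 3 + 27 * p.2 ^ 2 ≠ 0 ∧
    (∀ q : ℕ, q.Prime → ¬ ((q : ℤ) ^ 4 ∣ p.1 ∧ (q : ℤ) ^ 6 ∣ p.2)) ∧
    |p.1| ≤ C * (N : ℤ) ^ 20 ∧ |p.2| ≤ C * (N : ℤ) ^ 30 ∧
    (8 : Cardinal) ≤ Module.rank ℤ ((cur p.1 p.2).toAffine).Point}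

/-- CNT8 (from COL, SV8, BND, GCD, CERT8, UCL), Cauchy-Schwarz: at least `N¹² / 2` good parameters,
at most `125 N¹²` collisions. -/
def ST_CNT8 : Prop := ∃ C : ℤ, 1 ≤ C ∧ ∃ N0 : ℕ, ∀ N : ℕ, N0 ≤ N →
  N ^ 12 ≤ 500 * (RS8 C N).ncard

/-- GEN8: `N = ⌊(H / (27 C³))^(1/60)⌋`; compare `ST_GEN` of `Helper17.RS` (its proof). -/
def ST_GEN8 : Prop := ∀ C : ℤ, 1 ≤ C →
  (∃ N0 : ℕ, ∀ N : ℕ, N0 ≤ N → N ^ 12 ≤ 500 * (RS8 C N).ncard) →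
  ∃ c : ℝ, 0 < c ∧ ∃ H₀ : ℝ, ∀ H : ℝ, H₀ ≤ H → c * H ^ ((1 : ℝ) / 5) ≤ (NR 8 H : ℝ)

/-- the theorem -/
def ST_FIN8 : Prop := ∃ c : ℝ, 0 < c ∧ ∃ H₀ : ℝ, ∀ H : ℝ, H₀ ≤ H →
  c * H ^ ((1 : ℝ) / 5) ≤ (NR 8 H : ℝ)

/-! ## Checks -/

theorem chk_xb : xx bb = xb := by decide +kernel

theorem chk_base : Iv xb 89 = 4572500745941479639 ∧ Jv xb 89 = -67050740670093849767600562221 := by
  decide +kernel

theorem chk_quartic (x : Fin 7 → ℤ) (t r : ℤ) :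
    c4 x t * r ^ 8 + c3 x t * r ^ 6 + c2 x t * r ^ 4 + c1 x t * r ^ 2 + c0 x t = wi x t r ^ 2 -
      (r ^ 6 + x 0 * r ^ 4 + x 2 * r ^ 2 - t) * (r ^ 8 + x 0 * r ^ 6 - 2 * x 1 * r ^ 5 +
        x 2 * r ^ 4 - 2 * x 3 * r ^ 3 + x 4 * r ^ 2 - 2 * x 5 * r + x 6) := by
  unfold c4 c3 c2 c1 c0 wi
  ring

theorem chk_quartic' (x : Fin 7 → ℤ) (t : ℤ) :
    c4 x t * (-x 6) ^ 4 + c3 x t * (-x 6) ^ 3 * (x 4 + t) + c2 x t * (-x 6) ^ 2 * (x 4 + t) ^ 2 +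
      c1 x t * (-x 6) * (x 4 + t) ^ 3 + c0 x t * (x 4 + t) ^ 4 = wq x t ^ 2 := by
  unfold c4 c3 c2 c1 c0 wq
  ring

theorem st_FIN8 (h : ST_CNT8) (g : ST_GEN8) : ST_FIN8 := by
  obtain ⟨C, hC, h⟩ := h
  exact g C hC h

end Pool.Helper89.R8
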